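import Pool.Agent.N569.VT.Typ

/-!
# Project VU, part VU1: types of linkages
-/

set_option autoImplicit false

namespace Pool.Agent.N650.VU

open Pool.Agent.H891R2.Jones Pool.Agent.W639.RB Pool.Agent.TH561 Pool.Agent.N569.TW Pool.Agent.N569.VT
  Finset LaurentPolynomial

variable {m : ℕ}

/-- the number of the colourings with prescribed compatible colours at the ends -/
theorem card_z (X : Lk m) (N : ℕ) (z : Fin m ⊕ Fin m → Fin N) (hz : ∀ a b, X.part a b → z a = z b) :
    Nat.card {c : X.Q → Fin N // (∀ a, c (X.fin2 a) = z a) ∧ ∀ p q, X.R p q → c p = c q} =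
      N ^ X.free := by
  classical
  have h1 : Nat.card ({q : Quot X.R // ∀ a, Quot.mk X.R (X.fin2 a) ≠ q} → Fin N) = N ^ X.free := by
    rw [Nat.card_fun, Nat.card_fin]; rfl
  rw [← h1]
  refine Nat.card_congr (Equiv.ofBijective (fun c q => Quot.lift c.1 c.2.2 q.1) ⟨?_, ?_⟩)
  · intro c c' h
    apply Subtype.ext
    funext p
    by_cases hp : ∃ a, Quot.mk X.R (X.fin2 a) = Quot.mk X.R p
    · obtain ⟨a, ha⟩ := hp
      have e1 : c.1 p = z a := (congrArg (Quot.lift c.1 c.2.2) ha).symm.trans (c.2.1 a)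
      have e2 : c'.1 p = z a := (congrArg (Quot.lift c'.1 c'.2.2) ha).symm.trans (c'.2.1 a)
      rw [e1, e2]
    · exact congrFun h ⟨Quot.mk X.R p, fun a ha => hp ⟨a, ha⟩⟩
  · intro f
    obtain ⟨g, hg⟩ : ∃ g : Quot X.R → Fin N, g = fun q =>
      if h : ∃ a, Quot.mk X.R (X.fin2 a) = q then z h.choose else f ⟨q, fun a ha => h ⟨a, ha⟩⟩ :=
      ⟨_, rfl⟩
    refine ⟨⟨fun p => g (Quot.mk X.R p), ?_, fun p q hpq => congrArg g (Quot.sound hpq)⟩, ?_⟩
    · intro a
      have h : ∃ b, Quot.mk X.R (X.fin2 b) = Quot.mk X.R (X.fin2 a) := ⟨a, rfl⟩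
      rw [hg]
      simp only
      rw [dif_pos h]
      exact hz _ _ (Quot.eqvGen_exact h.choose_spec)
    · funext q
      obtain ⟨q, hq⟩ := q
      induction q using Quot.ind with
      | _ p =>
        change g (Quot.mk X.R p) = _
        rw [hg]
        simp only
        rw [dif_neg]
        rintro ⟨a, ha⟩
        exact hq a ha

/-- a colouring constant along the relation is constant on the classes -/
theorem const_eqvGen {Q V : Type} (R : Q → Q → Prop) (c : Q → V) (h : ∀ p q, R p q → c p = c q)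
    {p q : Q} (hpq : Relation.EqvGen R p q) : c p = c q := by
  induction hpq with
  | rel _ _ h1 => exact h _ _ h1
  | refl _ => rfl
  | symm _ _ _ ih => exact ih.symm
  | trans _ _ _ _ _ ih1 ih2 => exact ih1.trans ih2

open Classical in
theorem mat_eq (X : Lk m) (N : ℕ) (x y : Fin m → Fin N) : X.mat N x y =
    if ∀ a b, X.part a b → (Sum.elim x y : Fin m ⊕ Fin m → Fin N) a = Sum.elim x y b then
      (N : ℂ) ^ X.free else 0 := by
  have h0 : X.mat N x y = ∑ c : X.Q → Fin N,
      ind ((∀ a, c (X.fin2 a) = (Sum.elim x y : Fin m ⊕ Fin m → Fin N) a) ∧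
        ∀ p q, X.R p q → c p = c q) := by
    change ∑ c : X.Q → Fin N, ind (c ∘ X.l = x ∧ c ∘ X.u = y ∧ ∀ p q, X.R p q → c p = c q) = _
    refine Finset.sum_congr rfl fun c _ => ind_congr ?_
    constructor
    · rintro ⟨h1, h2, h3⟩
      refine ⟨?_, h3⟩
      rintro (a | a)
      · exact congrFun h1 a
      · exact congrFun h2 a
    · rintro ⟨h1, h3⟩
      exact ⟨funext fun j => h1 (Sum.inl j), funext fun j => h1 (Sum.inr j), h3⟩
  have h3 : X.mat N x y = ((Nat.card {c : X.Q → Fin N //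
      (∀ a, c (X.fin2 a) = (Sum.elim x y : Fin m ⊕ Fin m → Fin N) a) ∧
        ∀ p q, X.R p q → c p = c q} : ℕ) : ℂ) := by
    rw [h0, Nat.card_eq_fintype_card, Fintype.card_subtype, Finset.card_eq_sum_ones, Nat.cast_sum,
      Finset.sum_filter]
    refine Finset.sum_congr rfl fun c _ => ?_
    unfold ind
    split_ifs <;> simp
  rw [h3]
  split_ifs with h
  · rw [card_z X N _ h]
    push_cast
    rfl
  · have : IsEmpty {c : X.Q → Fin N //
      (∀ a, c (X.fin2 a) = (Sum.elim x y : Fin m ⊕ Fin m → Fin N) a) ∧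
        ∀ p q, X.R p q → c p = c q} := by
      constructor
      rintro ⟨c, hc, hR⟩
      apply h
      intro a b hab
      rw [← hc a, ← hc b]
      exact const_eqvGen X.R c hR hab
    rw [Nat.card_of_isEmpty, Nat.cast_zero]

/-- VU1 (1) -/
theorem mat_type (X Y : Lk m) (h : X.part = Y.part) (h' : X.free = Y.free) (N : ℕ) :
    X.mat N = Y.mat N := by
  ext x y
  rw [mat_eq, mat_eq, h, h']

/-- VU1 (2) -/
theorem free_le (X : Lk m) : X.free ≤ X.loops := by
  classical
  have key : ∀ p q : X.Q, Relation.EqvGen X.Rc p q → Quot.mk X.R p = Quot.mk X.R q ∨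
      (∃ a, Quot.mk X.R (X.fin2 a) = Quot.mk X.R p) ∧ ∃ a, Quot.mk X.R (X.fin2 a) = Quot.mk X.R q := by
    intro p q hpq
    induction hpq with
    | rel p q h =>
      rcases h with h | ⟨j, rfl, rfl⟩
      · exact Or.inl (Quot.sound h)
      · exact Or.inr ⟨⟨Sum.inl j, rfl⟩, ⟨Sum.inr j, rfl⟩⟩
    | refl _ => exact Or.inl rfl
    | symm _ _ _ ih =>
      rcases ih with h | ⟨h1, h2⟩
      · exact Or.inl h.symm
      · exact Or.inr ⟨h2, h1⟩
    | trans _ _ _ _ _ ih1 ih2 =>
      rcases ih1 with h | ⟨h1, h2⟩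
      · rw [h]; exact ih2
      · rcases ih2 with h' | ⟨h1', h2'⟩
        · rw [← h']; exact Or.inr ⟨h1, h2⟩
        · exact Or.inr ⟨h1, h2'⟩
  unfold Lk.free Lk.loops
  refine Nat.card_le_card_of_injective
    (fun q : {q : Quot X.R // ∀ a, Quot.mk X.R (X.fin2 a) ≠ q} =>
      Quot.lift (fun p => Quot.mk X.Rc p) (fun p q h => Quot.sound (Or.inl h)) q.1) ?_
  rintro ⟨q1, h1⟩ ⟨q2, h2⟩ h
  induction q1 using Quot.ind with
  | _ p1 =>
    induction q2 using Quot.ind with
    | _ p2 =>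
      have h' : Quot.mk X.Rc p1 = Quot.mk X.Rc p2 := h
      rcases key p1 p2 (Quot.eqvGen_exact h') with h3 | ⟨⟨a, ha⟩, -⟩
      · exact Subtype.ext h3
      · exact absurd ha (h1 a)

/-- the empty word -/
theorem lam_nil_loops (X : Lk m) : X.lam [] = X.loops := by
  have h1 := trace_lam X [] (by simp) 2
  rw [WP_nil, mul_one, trace_mat] at h1
  have h2 : (2 : ℕ) ^ X.loops = 2 ^ X.lam [] := by exact_mod_cast h1
  exact (Nat.pow_right_injective (le_refl 2) h2).symm

/-- VU1 (3) -/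
theorem free_le_lam (X : Lk m) : X.free ≤ X.lam [] := by
  rw [lam_nil_loops]
  exact free_le X

end Pool.Agent.N650.VU
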